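import Mathlib
import Pool.Agent.Helper546_cauchydefs
import Pool.Agent.Helper546_cauchy4

open MeasureTheory Set Complex
open scoped Real

namespace Pool.Agent.Results.MP_9dd505_an.NonAdmissibleKernel

open Pool.Agent.Helper546Cauchy

/-- The family `(1, 1), (i, 2i)` in `ℂ × ℂ`. -/
noncomputable def fam : Fin 2 → ℂ × ℂ := ![(1, 1), (I, 2 * I)]

/-- The kernel. -/
noncomputable def ker (x x₀ : Fin 2 → ℝ) : ℂ × ℂ := (-K 1 (x - x₀), -K 2 (x - x₀))

lemma fam_not_admissible {e' : Fin 2 → ℂ × ℂ} (hli : LinearIndependent ℝ e')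
    (hsp : ∀ j, e' j ∈ Submodule.span ℝ (Set.range fam)) : ¬ Admissible e' := by
  rintro ⟨p, hp⟩
  have hc : ∀ j, ∃ a b : ℝ, e' j = ((a : ℂ) + b * I, (a : ℂ) + 2 * (b * I)) := by
    intro j
    obtain ⟨c, hc⟩ := (Submodule.mem_span_range_iff_exists_fun ℝ).mp (hsp j)
    refine ⟨c 0, c 1, ?_⟩
    rw [← hc, Fin.sum_univ_two]
    ext <;> simp [fam]
    ring
  obtain ⟨a0, b0, h0⟩ := hc 0
  obtain ⟨a1, b1, h1⟩ := hc 1
  have h00 := hp 0 0
  have h11 := hp 1 1
  have h01 := hp 0 1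
  simp only [if_true, Fin.isValue, h0, h1, show ((0 : Fin 2) = 1) = False by simp, if_false] at h00 h11 h01
  have key : ∀ (u v s t : ℂ), s * u + s * u = 2 → t * v + t * v = 2 → s * v + t * u = 0 →
      u ^ 2 + v ^ 2 = 0 := by
    intro u v s t h1 h2 h3
    have e1 : s * u = 1 := by linear_combination h1 / 2
    have e2 : t * v = 1 := by linear_combination h2 / 2
    linear_combination u * v * h3 - v ^ 2 * e1 - u ^ 2 * e2
  have k1 := key _ _ (p 0).1 (p 1).1 (congrArg Prod.fst h00) (congrArg Prod.fst h11)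
    (congrArg Prod.fst h01)
  have k2 := key _ _ (p 0).2 (p 1).2 (congrArg Prod.snd h00) (congrArg Prod.snd h11)
    (congrArg Prod.snd h01)
  have r1 := congrArg Complex.re k1
  have r2 := congrArg Complex.re k2
  simp [pow_two] at r1 r2
  have hb : b0 ^ 2 + b1 ^ 2 = 0 := by nlinarith
  have hb0 : b0 = 0 := by nlinarith [sq_nonneg b0, sq_nonneg b1]
  have hb1 : b1 = 0 := by nlinarith [sq_nonneg b0, sq_nonneg b1]
  subst hb0 hb1
  have ha0 : a0 = 0 := by nlinarith [sq_nonneg a0, sq_nonneg a1]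
  subst ha0
  apply hli.ne_zero 0
  rw [h0]
  ext <;> simp

lemma fam_linearIndependent : LinearIndependent ℝ fam := by
  rw [Fintype.linearIndependent_iff]
  intro g hg
  rw [Fin.sum_univ_two] at hg
  have h1 := congrArg Prod.fst hg
  have hre := congrArg Complex.re h1
  have him := congrArg Complex.im h1
  simp [fam] at hre him
  intro i
  fin_cases i
  · exact hre
  · exact him

lemma K_analyticAt {lam : ℝ} (hlam : lam ≠ 0) {p : (Fin 2 → ℝ) × (Fin 2 → ℝ)}
    (hp : p.1 ≠ p.2) :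
    AnalyticAt ℝ (fun q : (Fin 2 → ℝ) × (Fin 2 → ℝ) => K lam (q.1 - q.2)) p := by
  have h1 : AnalyticAt ℝ (fun q : (Fin 2 → ℝ) × (Fin 2 → ℝ) => Z lam (q.1 - q.2)) p := by
    have h2 : AnalyticAt ℝ (fun q : (Fin 2 → ℝ) × (Fin 2 → ℝ) => q.1 - q.2) p :=
      analyticAt_fst.sub analyticAt_snd
    exact ((Z lam).analyticAt _).comp h2
  unfold K
  exact analyticAt_const.mul (h1.inv (Z_ne_zero hlam (sub_ne_zero.mpr hp)))

lemma ker_analytic : AnalyticOnNhd ℝ
    (fun p : (Fin 2 → ℝ) × (Fin 2 → ℝ) => ker p.1 p.2) {p | p.1 ≠ p.2} := by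
  intro p hp
  unfold ker
  exact ((K_analyticAt one_ne_zero hp).neg).prod ((K_analyticAt two_ne_zero hp).neg)

lemma ker_formula : GivesCauchyFormula fam ker := by
  intro U f hU hf M σ ν hB hMU x₀ hx₀
  have hf1 : ∀ x ∈ U, DifferentiableAt ℝ (fun y => (f y).1) x ∧
      Dop 1 (fderiv ℝ (fun y => (f y).1) x) = 0 := by
    intro x hx
    obtain ⟨hd, he⟩ := hf x hx
    have h1 : HasFDerivAt (fun y => (f y).1)
        ((ContinuousLinearMap.fst ℝ ℂ ℂ).comp (fderiv ℝ f x)) x :=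
      (ContinuousLinearMap.fst ℝ ℂ ℂ).hasFDerivAt.comp x hd.hasFDerivAt
    refine ⟨h1.differentiableAt, ?_⟩
    rw [h1.fderiv]
    rw [Fin.sum_univ_two] at he
    have h2 := congrArg Prod.fst he
    simpa [fam, Dop] using h2
  have hf2 : ∀ x ∈ U, DifferentiableAt ℝ (fun y => (f y).2) x ∧
      Dop 2 (fderiv ℝ (fun y => (f y).2) x) = 0 := by
    intro x hx
    obtain ⟨hd, he⟩ := hf x hx
    have h1 : HasFDerivAt (fun y => (f y).2)
        ((ContinuousLinearMap.snd ℝ ℂ ℂ).comp (fderiv ℝ f x)) x :=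
      (ContinuousLinearMap.snd ℝ ℂ ℂ).hasFDerivAt.comp x hd.hasFDerivAt
    refine ⟨h1.differentiableAt, ?_⟩
    rw [h1.fderiv]
    rw [Fin.sum_univ_two] at he
    have h2 := congrArg Prod.snd he
    simpa [fam, Dop] using h2
  obtain ⟨i1, e1⟩ := core one_pos hU hf1 hB hMU hx₀
  obtain ⟨i2, e2⟩ := core two_pos hU hf2 hB hMU hx₀
  have heq : (fun x => ker x x₀ * surfaceForm fam ν x * f x) = fun x =>
      (K 1 (x - x₀) * (f x).1 * (ν x 0 + (1 : ℝ) * I * ν x 1),
        K 2 (x - x₀) * (f x).2 * (ν x 0 + (2 : ℝ) * I * ν x 1)) := by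
    funext x
    have hs : surfaceForm fam ν x = (-(ν x 0 + (1 : ℝ) * I * ν x 1 : ℂ),
        -(ν x 0 + (2 : ℝ) * I * ν x 1 : ℂ)) := by
      rw [surfaceForm, Fin.sum_univ_two]
      ext <;> simp [fam] <;> ring
    rw [hs, ker]
    ext1
    · simp only [Prod.fst_mul]
      ring
    · simp only [Prod.snd_mul]
      ring
  rw [heq]
  refine ⟨i1.prodMk i2, ?_⟩
  rw [integral_pair i1 i2, e1, e2]

lemma K_homogeneous {lam t : ℝ} (x : Fin 2 → ℝ) : K lam (t • x) = (t : ℂ)⁻¹ * K lam x := by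
  unfold K
  rw [map_smul, Complex.real_smul, mul_inv]
  ring

/-- **The characterisation fails for `C¹` kernels, and already for real-analytic ones.**  In the
algebra `ℂ × ℂ` there are two linearly independent elements `e 0, e 1` such that no basis of their
real span is admissible (in particular `e` is not admissible), while a kernel `G(x, x₀)` which
depends only on `x - x₀`, is homogeneous of degree `-1 = -(k - 1)` in it, and is real-analytic,
hence `C¹`, off the diagonal gives a Cauchy integral formula. -/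
theorem result :
    ∃ (e : Fin 2 → ℂ × ℂ) (G : (Fin 2 → ℝ) → (Fin 2 → ℝ) → ℂ × ℂ),
      LinearIndependent ℝ e ∧
      ¬ Admissible e ∧
      (∀ e' : Fin 2 → ℂ × ℂ, LinearIndependent ℝ e' →
        (∀ j, e' j ∈ Submodule.span ℝ (Set.range e)) → ¬ Admissible e') ∧
      AnalyticOnNhd ℝ (fun p : (Fin 2 → ℝ) × (Fin 2 → ℝ) => G p.1 p.2) {p | p.1 ≠ p.2} ∧
      ContDiffOn ℝ 1 (fun p : (Fin 2 → ℝ) × (Fin 2 → ℝ) => G p.1 p.2) {p | p.1 ≠ p.2} ∧
      (∀ x x₀, G x x₀ = G (x - x₀) 0) ∧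
      (∀ (t : ℝ) (x : Fin 2 → ℝ), 0 < t → G (t • x) 0 = t⁻¹ • G x 0) ∧
      GivesCauchyFormula e G :=
  ⟨fam, ker, fam_linearIndependent,
    fam_not_admissible fam_linearIndependent fun j => Submodule.subset_span ⟨j, rfl⟩,
    fun _ hli hsp => fam_not_admissible hli hsp, ker_analytic,
    fun p hp => (ker_analytic p hp).contDiffAt.contDiffWithinAt,
    fun x x₀ => by simp [ker],
    fun t x _ => by
      simp only [ker, sub_zero, K_homogeneous, Prod.smul_mk, Complex.real_smul, mul_neg,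
        Complex.ofReal_inv],
    ker_formula⟩

end Pool.Agent.Results.MP_9dd505_an.NonAdmissibleKernel
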